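import Pool.Agent.H631.EI.ZStm

/-!
# Project EI (helper631), task EI-Z3: `S_ADD` and `S_COF`
-/

set_option autoImplicit false

namespace Pool.Agent.H631.EI.Z3

open Cardinal Filter Topology Classical Pool.Agent.H631.EI Pool.Agent.H631.EV

/-- the block given by a function -/
noncomputable def blk (y : ℕ → ℕ) (n : ℕ) : Finset (Iv aa n → Bool) :=
  Finset.univ.filter fun w => cod n w / VV n = y n % VV n

theorem blk_mem {y : ℕ → ℕ} {n : ℕ} {w : Iv aa n → Bool} :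
    w ∈ blk y n ↔ cod n w / VV n = y n % VV n := by
  simp [blk]

theorem blk_card (y : ℕ → ℕ) (n : ℕ) : (blk y n).card ≤ VV n := by
  have h2 : (blk y n).image (cod n) ⊆
      Finset.Ico ((y n % VV n) * VV n) ((y n % VV n) * VV n + VV n) := by
    intro c hc
    obtain ⟨w, hw, rfl⟩ := Finset.mem_image.1 hc
    rw [blk_mem] at hw
    rw [Finset.mem_Ico, ← hw]
    have h3 : cod n w / VV n * VV n + cod n w % VV n = cod n w := Nat.div_add_mod' _ _
    have h4 : cod n w % VV n < VV n := Nat.mod_lt _ (VV_pos n)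
    omega
  have h3 := Finset.card_le_card h2
  rw [Finset.card_image_of_injective _ (cod_inj n), Nat.card_Ico] at h3
  omega

theorem blk_sigma (y : ℕ → ℕ) : InSigma aa ee (blk y) := sigma_of_le (blk_card y)

theorem blk_ideal (y : ℕ → ℕ) : AlmAll aa (blk y) ∈ JJ :=
  ⟨blk y, blk_sigma y, Set.Subset.rfl⟩

theorem cod_elem {n m r : ℕ} (hm : m < VV n) (hr : r < VV n) :
    cod n (dcd n (m * VV n + r)) = m * VV n + r := by
  rw [cod_dcd, Nat.mod_eq_of_lt]
  rw [bb_eq]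
  calc m * VV n + r < m * VV n + VV n := by omega
    _ = (m + 1) * VV n := by ring
    _ ≤ VV n * VV n := Nat.mul_le_mul_right _ hm

theorem elem_div {n m r : ℕ} (hr : r < VV n) : (m * VV n + r) / VV n = m := by
  rw [add_comm, Nat.add_mul_div_right _ _ (VV_pos n), Nat.div_eq_of_lt hr, zero_add]

/-- the numbers of the blocks which are contained in `φ n` -/
noncomputable def full (φ : (n : ℕ) → Finset (Iv aa n → Bool)) (n : ℕ) : Finset ℕ :=
  (Finset.range (VV n)).filter fun m => ∀ r, r < VV n → dcd n (m * VV n + r) ∈ φ n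

theorem full_mem {φ : (n : ℕ) → Finset (Iv aa n → Bool)} {n m : ℕ} :
    m ∈ full φ n ↔ m < VV n ∧ ∀ r, r < VV n → dcd n (m * VV n + r) ∈ φ n := by
  simp [full]

theorem full_card {φ : (n : ℕ) → Finset (Iv aa n → Bool)} {n : ℕ}
    (h : (φ n).card ≤ (n + 1) * VV n) : (full φ n).card ≤ n + 1 := by
  have h1 : (full φ n ×ˢ Finset.range (VV n)).card ≤ (φ n).card := by
    refine Finset.card_le_card_of_injOn (fun z => dcd n (z.1 * VV n + z.2)) ?_ ?_
    · rintro ⟨m, r⟩ hz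
      rw [Finset.mem_coe, Finset.mem_product, full_mem, Finset.mem_range] at hz
      exact hz.1.2 r hz.2
    · rintro ⟨m, r⟩ hz ⟨m', r'⟩ hz' heq
      rw [Finset.mem_coe, Finset.mem_product, full_mem, Finset.mem_range] at hz hz'
      have h2 : m * VV n + r = m' * VV n + r' := by
        rw [← cod_elem hz.1.1 hz.2, ← cod_elem hz'.1.1 hz'.2]
        exact congrArg (cod n) heq
      have h3 : m = m' := by
        rw [← elem_div (m := m) hz.2, ← elem_div (m := m') hz'.2, h2]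
      subst h3
      have h4 : r = r' := by omega
      rw [h4]
  rw [Finset.card_product, Finset.card_range] at h1
  exact Nat.le_of_mul_le_mul_right (h1.trans h) (VV_pos n)

theorem slalom_of {φ : (n : ℕ) → Finset (Iv aa n → Bool)} (h : InSigma aa ee φ) :
    ∃ (N : ℕ) (ψ : ℕ → ℕ), ∀ n, N ≤ n →
      ∀ m ∈ full φ n, ∃ i, i ≤ n ∧ ψ (Nat.pair n i) = m := by
  obtain ⟨N, hN⟩ := small_of h
  let G : ℕ × ℕ → ℕ := fun z => (full φ z.1).toList.getD z.2 0
  refine ⟨N, fun m => G (Nat.unpair m), fun n hn m hm => ?_⟩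
  have h1 : m ∈ (full φ n).toList := Finset.mem_toList.2 hm
  obtain ⟨i, hi, him⟩ := List.getElem_of_mem h1
  have h2 : (full φ n).toList.length ≤ n + 1 := by
    rw [Finset.length_toList]
    exact full_card (hN n hn)
  refine ⟨i, by omega, ?_⟩
  show G (Nat.unpair (Nat.pair n i)) = _
  rw [Nat.unpair_pair]
  show (full φ n).toList.getD i 0 = _
  rw [List.getD_eq_getElem _ _ hi, him]

/-- a point in `[blk y]_*` outside `[φ]_*` -/
theorem separate {φ : (n : ℕ) → Finset (Iv aa n → Bool)} {N : ℕ} {ψ : ℕ → ℕ}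
    (hφ : ∀ n, N ≤ n → ∀ m ∈ full φ n, ∃ i, i ≤ n ∧ ψ (Nat.pair n i) = m)
    {y : ℕ → ℕ} (hy : ∀ M, ∃ n, M ≤ n ∧ ∀ i, i ≤ n → ψ (Nat.pair n i) ≠ y n % VV n) :
    ∃ x, x ∈ AlmAll aa (blk y) ∧ x ∉ AlmAll aa φ := by
  have hex : ∀ n, ∃ w : Iv aa n → Bool, w ∈ blk y n ∧ (y n % VV n ∉ full φ n → w ∉ φ n) := by
    intro n
    have hm : y n % VV n < VV n := Nat.mod_lt _ (VV_pos n)
    have hblk : ∀ r, r < VV n → dcd n ((y n % VV n) * VV n + r) ∈ blk y n := by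
      intro r hr
      rw [blk_mem, cod_elem hm hr, elem_div hr]
    by_cases h : y n % VV n ∈ full φ n
    · exact ⟨_, hblk 0 (VV_pos n), fun h2 => absurd h h2⟩
    · have h2 : ∃ r, r < VV n ∧ dcd n ((y n % VV n) * VV n + r) ∉ φ n := by
        by_contra hcon
        push Not at hcon
        exact h (full_mem.2 ⟨hm, hcon⟩)
      obtain ⟨r, hr, h3⟩ := h2
      exact ⟨_, hblk r hr, fun _ => h3⟩
  choose w hw using hex
  obtain ⟨x, hx⟩ := glue aa_part w
  refine ⟨x, ⟨0, fun n _ => ?_⟩, ?_⟩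
  · rw [hx]
    exact (hw n).1
  · rintro ⟨N', hN'⟩
    obtain ⟨n, hn, h2⟩ := hy (max N' N)
    have h3 := hN' n ((le_max_left _ _).trans hn)
    rw [hx] at h3
    refine (hw n).2 (fun h4 => ?_) h3
    obtain ⟨i, hi, h5⟩ := hφ n ((le_max_right _ _).trans hn) _ h4
    exact h2 i hi h5

theorem th_ADD : S_ADD := by
  rintro T ⟨φ, hφ⟩
  refine le_trans (b := #(Set.range fun t => AlmAll aa (blk (φ t)))) ?_
    Cardinal.mk_range_le
  refine csInf_le' ⟨_, ?_, ?_, rfl⟩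
  · rintro _ ⟨t, rfl⟩
    exact blk_ideal _
  · rintro ⟨χ, hχ, hsub⟩
    obtain ⟨N, ψ, h⟩ := slalom_of hχ
    obtain ⟨t, ht⟩ := hφ ψ
    obtain ⟨x, hx1, hx2⟩ := separate h (y := φ t) fun M => by
      obtain ⟨n, hn, h2⟩ := ht M
      exact ⟨n, hn, fun i hi h3 => h2 i hi ⟨φ t n, rfl, h3⟩⟩
    exact hx2 (hsub ⟨_, ⟨t, rfl⟩, hx1⟩)

theorem th_COF : S_COF := by
  intro L h
  have hne : {κ : Cardinal.{0} | ∃ F : Set (Set (ℕ → Bool)), F ⊆ JJ ∧
      (∀ A ∈ JJ, ∃ B ∈ F, A ⊆ B) ∧ #F = κ}.Nonempty :=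
    ⟨_, JJ, Set.Subset.rfl, fun A hA => ⟨A, hA, Set.Subset.rfl⟩, rfl⟩
  obtain ⟨F, hF, hcof, hc⟩ := csInf_mem hne
  change #F = cofC JJ at hc
  by_contra hcon
  rw [not_lt, ← hc] at hcon
  have hFne : F.Nonempty := by
    obtain ⟨B, hB, -⟩ := hcof _ (blk_ideal fun _ => 0)
    exact ⟨B, hB⟩
  obtain ⟨g, hg1, hg2⟩ := exists_onto hFne hcon
  choose χ hχ hsub using fun t => hF (hg1 t)
  choose N ψ hψ using fun t => slalom_of (hχ t)
  obtain ⟨φ, hφ⟩ := h ψ
  obtain ⟨B, hB, hB2⟩ := hcof _ (blk_ideal φ)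
  obtain ⟨l, rfl⟩ := hg2 B hB
  obtain ⟨x, hx1, hx2⟩ := separate (hψ l) (y := φ) fun M => by
    obtain ⟨n, hn, h2⟩ := hφ l M
    exact ⟨n, hn, fun i hi h3 => h2 i hi ⟨φ n, rfl, h3⟩⟩
  exact hx2 (hsub l (hB2 hx1))

end Pool.Agent.H631.EI.Z3
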