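import Pool.Agent.H631.EI.ZStm

/-!
# Project EI: `S_LTNON` and `S_COVLE`
-/

set_option autoImplicit false

namespace Pool.Agent.H631.EI.Z4

open Pool.Agent.H631.EI Pool.Agent.H631.EV Cardinal Filter Topology

open Classical in
/-- the set of the functions whose numbers are captured by the slalom `σ` -/
noncomputable def capS (σ : ℕ → ℕ) (n : ℕ) : Finset (Iv aa n → Bool) :=
  Finset.univ.filter fun w => cod n w ∈ dec n (σ n)

theorem mem_capS {σ : ℕ → ℕ} {n : ℕ} {w : Iv aa n → Bool} :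
    w ∈ capS σ n ↔ cod n w ∈ dec n (σ n) := by
  simp [capS]

theorem capS_card (σ : ℕ → ℕ) (n : ℕ) : (capS σ n).card ≤ VV n := by
  refine le_trans ?_ (dec_card n (σ n))
  exact Finset.card_le_card_of_injOn (cod n) (fun w hw => mem_capS.1 hw)
    fun w _ w' _ h => cod_inj n h

theorem capS_ideal (σ : ℕ → ℕ) : AlmAll aa (capS σ) ∈ JJ :=
  ⟨capS σ, sigma_of_le (capS_card σ), Set.Subset.rfl⟩

theorem mem_almAll {σ : ℕ → ℕ} {z : ℕ → Bool} {N : ℕ}
    (h : ∀ n, N ≤ n → ∃ v, cod n (res aa n z) = v ∧ ∃ s, σ n = s ∧ v % bb n ∈ dec n s) :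
    z ∈ AlmAll aa (capS σ) := by
  refine ⟨N, fun n hn => mem_capS.2 ?_⟩
  obtain ⟨v, hv, s, hs, hmem⟩ := h n hn
  rw [← hv, Nat.mod_eq_of_lt (cod_lt n _), ← hs] at hmem
  exact hmem

theorem th_LTNON : S_LTNON := by
  intro huniv T hT
  have hne : {κ : Cardinal.{0} | ∃ A : Set (ℕ → Bool), A ∉ JJ ∧ #A = κ}.Nonempty :=
    ⟨_, Set.univ, huniv, rfl⟩
  obtain ⟨A, hA, hc⟩ := csInf_mem hne
  change #A = nonC JJ at hc
  by_contra hcon
  rw [not_lt, ← hc] at hcon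
  have hAne : A.Nonempty := by
    rw [Set.nonempty_iff_ne_empty]
    rintro rfl
    obtain ⟨φ, hφ, -⟩ := capS_ideal fun _ => 0
    exact hA ⟨φ, hφ, Set.empty_subset _⟩
  obtain ⟨g, -, hg2⟩ := exists_onto hAne hcon
  obtain ⟨σ, hσ⟩ := hT fun t n => cod n (res aa n (g t))
  refine hA ⟨capS σ, sigma_of_le (capS_card σ), fun z hz => ?_⟩
  obtain ⟨t, rfl⟩ := hg2 z hz
  obtain ⟨N, hN⟩ := hσ t
  exact mem_almAll hN

theorem th_COVLE : S_COVLE := by
  intro L hL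
  obtain ⟨σ, hσ⟩ := hL
  refine le_trans (b := #(Set.range fun l => AlmAll aa (capS (σ l)))) ?_ Cardinal.mk_range_le
  refine csInf_le' ⟨_, ?_, ?_, rfl⟩
  · rintro _ ⟨l, rfl⟩
    exact capS_ideal _
  · refine Set.eq_univ_of_forall fun z => ?_
    obtain ⟨l, N, hN⟩ := hσ fun n => cod n (res aa n z)
    exact ⟨_, ⟨l, rfl⟩, mem_almAll hN⟩

end Pool.Agent.H631.EI.Z4
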