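import Pool.Agent.H631.EI.ZStm

/-!
# Project EI (helper631): Z5
-/

set_option autoImplicit false

namespace Pool.Agent.H631.EI.Z5

open Pool.Agent.H631.EI Pool.Agent.H631.EV Cardinal Filter Topology

theorem esc {φ : (n : ℕ) → Finset (Iv aa n → Bool)} (h : InSigma aa ee φ) :
    ∃ (N : ℕ) (x : ℕ → ℕ), (∀ n, x n < bb n) ∧ ∀ n, N ≤ n → ∀ w ∈ φ n, cod n w ≠ x n := by
  obtain ⟨N, hN⟩ := small_of h
  have h1 : ∀ n, ∃ w : Iv aa n → Bool, N ≤ n → w ∉ φ n := by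
    intro n
    by_cases hn : N ≤ n
    swap
    · exact ⟨fun _ => false, fun h => absurd h hn⟩
    have h2 : (φ n).card < (Finset.univ : Finset (Iv aa n → Bool)).card := by
      rw [Finset.card_univ, card_Iv, bb_eq]
      exact lt_of_le_of_lt (hN n hn) (Nat.mul_lt_mul_of_pos_right (lt_VV n) (VV_pos n))
    obtain ⟨w, -, hw⟩ := Finset.exists_mem_notMem_of_card_lt_card h2
    exact ⟨w, fun _ => hw⟩
  choose w hw using h1
  refine ⟨N, fun n => cod n (w n), fun n => cod_lt n _, fun n hn u hu he => hw n hn ?_⟩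
  rw [← cod_inj n he]
  exact hu

theorem th_NONLE : S_NONLE := by
  intro K h
  obtain ⟨y, hy⟩ := h
  choose z hz using fun k => glue aa_part fun n => dcd n (y k n)
  refine le_trans (b := #(Set.range z)) ?_ Cardinal.mk_range_le
  refine csInf_le' ⟨_, ?_, rfl⟩
  rintro ⟨φ, hφ, hsub⟩
  obtain ⟨N, x, hx, hN⟩ := esc hφ
  obtain ⟨k, hk⟩ := hy x
  obtain ⟨M, hM⟩ := hsub ⟨k, rfl⟩
  obtain ⟨n, hn, v, hv, hv2⟩ := hk (max M N)
  have h1 := hM n ((le_max_left _ _).trans hn)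
  rw [hz] at h1
  refine hN n ((le_max_right _ _).trans hn) _ h1 ?_
  rw [cod_dcd, hv2, ← hv, Nat.mod_mod, Nat.mod_eq_of_lt (hx n)]

theorem th_LTCOV : S_LTCOV := by
  intro hs K h
  have hne : {κ : Cardinal.{0} | ∃ F : Set (Set (ℕ → Bool)), F ⊆ JJ ∧ ⋃₀ F = Set.univ ∧
      #F = κ}.Nonempty := by
    refine ⟨_, Set.range (fun x : ℕ → Bool => ({x} : Set (ℕ → Bool))), ?_, ?_, rfl⟩
    · rintro _ ⟨x, rfl⟩
      exact hs x
    · rw [Set.sUnion_range]
      exact Set.iUnion_of_singleton _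
  obtain ⟨F, hF, hcov, hc⟩ := csInf_mem hne
  change #F = covC JJ at hc
  by_contra hcon
  rw [not_lt, ← hc] at hcon
  have hFne : F.Nonempty := by
    have h1 : (fun _ => false : ℕ → Bool) ∈ ⋃₀ F := by rw [hcov]; exact Set.mem_univ _
    obtain ⟨A, hA, -⟩ := h1
    exact ⟨A, hA⟩
  obtain ⟨g, hg1, hg2⟩ := exists_onto hFne hcon
  choose χ hχ hsub using fun t => hF (hg1 t)
  choose N x hx hN using fun t => esc (hχ t)
  obtain ⟨d, hd⟩ := h x
  obtain ⟨z, hz⟩ := glue aa_part fun n => dcd n (d n)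
  have h1 : z ∈ ⋃₀ F := by rw [hcov]; exact Set.mem_univ _
  obtain ⟨A, hA, hzA⟩ := h1
  obtain ⟨t, rfl⟩ := hg2 A hA
  obtain ⟨M, hM⟩ := hsub t hzA
  obtain ⟨n, hn, v, hv, hv2⟩ := hd t (max M (N t))
  have h2 := hM n ((le_max_left _ _).trans hn)
  rw [hz] at h2
  refine hN t n ((le_max_right _ _).trans hn) _ h2 ?_
  rw [cod_dcd, hv2, ← hv, Nat.mod_mod, Nat.mod_eq_of_lt (hx t n)]

end Pool.Agent.H631.EI.Z5
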