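import Pool.Agent.H631.EI.Card
import Pool.Agent.H631.EI.UnitM
import Pool.Agent.H631.EI.Z2
import Pool.Agent.H631.EI.Z3
import Pool.Agent.H631.EI.Z4
import Pool.Agent.H631.EI.Z5

/-!
# The values of the cardinal invariants of `E_{I, ε}`
-/

set_option autoImplicit false

namespace Pool.Agent.H631.EI

open Cardinal Pool.Agent.H631.EV

theorem singleton_mem : ∀ x : ℕ → Bool, {x} ∈ JJ := Z2.th_SING

theorem univ_notMem : Set.univ ∉ JJ := Z2.th_UNIV

/-- the values of the cardinal invariants -/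
theorem values {T K L : Type} (h : PhiFor T K L) :
    addC JJ ≤ #T ∧ #T < nonC JJ ∧ nonC JJ ≤ #K ∧ #K < covC JJ ∧ covC JJ ≤ #L ∧ #L < cofC JJ :=
  ⟨Z3.th_ADD T h.1, Z4.th_LTNON univ_notMem T h.2.1, Z5.th_NONLE K h.2.2.1,
    Z5.th_LTCOV singleton_mem K h.2.2.2.1, Z4.th_COVLE L h.2.2.2.2.1, Z3.th_COF L h.2.2.2.2.2⟩

end Pool.Agent.H631.EI
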