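import Pool.Agent.H631.EI.Book

/-!
# The cardinalities, and the forcing theorem
-/

set_option autoImplicit false
set_option linter.unusedSectionVars false

namespace Pool.Agent.H631.EI

open Classical Cardinal
open scoped Cardinal
open Pool.Agent.Helper669.Forcing

/-- the index set of the coordinates as a sum -/
def ixEmb {K L C : Type} : Ix K L C → (K × L) ⊕ (K ⊕ (L ⊕ C))
  | .ev k l => Sum.inl (k, l)
  | .ck k => Sum.inr (Sum.inl k)
  | .dl l => Sum.inr (Sum.inr (Sum.inl l))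
  | .cc c => Sum.inr (Sum.inr (Sum.inr c))

theorem ixEmb_inj {K L C : Type} : Function.Injective (ixEmb (K := K) (L := L) (C := C)) := by
  intro x y h
  cases x <;> cases y <;> simp [ixEmb] at h <;> simp [h]

theorem mk_Ix {K L C : Type} {c : Cardinal.{0}} (hc : ℵ₀ ≤ c) (hK : #K ≤ c) (hL : #L ≤ c)
    (hC : #C ≤ c) : #(Ix K L C) ≤ c := by
  refine (Cardinal.mk_le_of_injective ixEmb_inj).trans ?_
  simp only [Cardinal.mk_sum, Cardinal.mk_prod, Cardinal.lift_id]
  have h1 : #K * #L ≤ c := (mul_le_mul' hK hL).trans (Cardinal.mul_eq_self hc).le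
  have h2 : ∀ a b : Cardinal.{0}, a ≤ c → b ≤ c → a + b ≤ c := fun a b ha hb =>
    (add_le_add ha hb).trans (Cardinal.add_eq_self hc).le
  exact h2 _ _ h1 (h2 _ _ hK (h2 _ _ hL hC))

theorem mk_CV {M : Type} {c : Cardinal.{0}} (hc : ℵ₀ ≤ c) (hM : #M ≤ c) : #(CV M) ≤ c := by
  let f : CV M → List ℕ × Finset M := fun v => (v.stem, v.pr)
  have hf : Function.Injective f := by
    rintro ⟨a, b⟩ ⟨a', b'⟩ h
    simp only [f, Prod.mk.injEq] at h
    rw [h.1, h.2]
  refine (Cardinal.mk_le_of_injective hf).trans ?_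
  rw [Cardinal.mk_prod, Cardinal.lift_id, Cardinal.lift_id]
  have h1 : #(Finset M) ≤ c := by
    rcases finite_or_infinite M with h | h
    · exact (Cardinal.lt_aleph0_of_finite _).le.trans hc
    · rw [Cardinal.mk_finset_of_infinite]
      exact hM
  calc #(List ℕ) * #(Finset M) ≤ ℵ₀ * c := mul_le_mul' Cardinal.mk_le_aleph0 h1
    _ = c := Cardinal.aleph0_mul_eq hc

theorem mk_Cond {M I : Type} {c : Cardinal.{0}} (hc : ℵ₀ ≤ c) (hM : #M ≤ c)
    (hI : #I ≤ c) : #(Cond M I) ≤ c := by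
  let f : Cond M I → Finset (I × CV M) := fun u => u.supp.image fun i => (i, u i)
  have hf : Function.Injective f := by
    intro u w h
    have key : ∀ u w : Cond M I, f u = f w → ∀ i : I, u i ≠ CV.top → w i = u i := by
      intro u w h i hi
      have h2 : (i, u i) ∈ f u := Finset.mem_image.2 ⟨i, Cond.mem_supp.2 hi, rfl⟩
      rw [h] at h2
      obtain ⟨i', _, h3⟩ := Finset.mem_image.1 h2
      rw [Prod.mk.injEq] at h3
      obtain ⟨rfl, h4⟩ := h3
      exact h4
    apply Cond.ext'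
    intro i
    by_cases h2 : u i = CV.top
    · by_cases h3 : w i = CV.top
      · rw [h2, h3]
      · exact key w u h.symm i h3
    · exact (key u w h i h2).symm
  refine (Cardinal.mk_le_of_injective hf).trans ?_
  have h2 : #(I × CV M) ≤ c := by
    rw [Cardinal.mk_prod, Cardinal.lift_id, Cardinal.lift_id]
    calc #I * #(CV M) ≤ c * c := mul_le_mul' hI (mk_CV hc hM)
      _ = c := Cardinal.mul_eq_self hc
  rcases finite_or_infinite (I × CV M) with h3 | h3
  · exact (Cardinal.lt_aleph0_of_finite _).le.trans hc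
  · rw [Cardinal.mk_finset_of_infinite]
    exact h2

theorem mk_Nm {M I : Type} {c : Cardinal.{0}} (hc : ℵ₀ ≤ c) (hc2 : c ^ ℵ₀ = c)
    (hM : #M ≤ c) (hI : #I ≤ c) : #(Nm M I) ≤ c := by
  have h1 : #(Option (Cond M I × ℕ)) ≤ c := by
    rw [Cardinal.mk_option, Cardinal.mk_prod, Cardinal.lift_id, Cardinal.lift_id]
    have h2 : #(Cond M I) * #ℕ ≤ c :=
      (mul_le_mul' (mk_Cond hc hM hI) Cardinal.mk_le_aleph0).trans (Cardinal.mul_aleph0_eq hc).le
    calc #(Cond M I) * #ℕ + 1 ≤ c + c := add_le_add h2 (Cardinal.one_le_aleph0.trans hc)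
      _ = c := Cardinal.add_eq_self hc
  have h2 : #(ℕ → ℕ → Option (Cond M I × ℕ)) = #(Option (Cond M I × ℕ)) ^ ℵ₀ := by
    rw [← Cardinal.mk_congr (Equiv.curry ℕ ℕ (Option (Cond M I × ℕ)))]
    simp
  show #(ℕ → ℕ → Option (Cond M I × ℕ)) ≤ c
  rw [h2]
  conv_rhs => rw [← hc2]
  exact Cardinal.power_le_power_right h1

/-- small families in a successor cardinal are bounded -/
theorem bdd_succ {A : Type} {κ : Cardinal.{0}} (hκ : ℵ₀ ≤ κ) (hA : #A ≤ κ)
    (f : A → (Order.succ κ).ord.ToType) : ∃ β, ∀ k, f k < β := by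
  by_contra hcon
  push Not at hcon
  have h1 : (Set.univ : Set (Order.succ κ).ord.ToType) = ⋃ k, Set.Iic (f k) := by
    ext β
    simp only [Set.mem_univ, Set.mem_iUnion, Set.mem_Iic, true_iff]
    exact hcon β
  have h2 : ∀ k, #(Set.Iic (f k)) ≤ κ := by
    intro k
    have h30 : #(Set.Iio (f k)) < Order.succ κ := Cardinal.mk_Iio_toType_ord_lt (f k)
    have h3 : #(Set.Iio (f k)) ≤ κ := Order.lt_succ_iff.1 h30
    have h4 : Set.Iic (f k) = insert (f k) (Set.Iio (f k)) := by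
      ext β
      simp only [Set.mem_Iic, Set.mem_insert_iff, Set.mem_Iio]
      exact le_iff_eq_or_lt
    rw [h4]
    refine (Cardinal.mk_insert_le).trans ?_
    exact (add_le_add h3 (Cardinal.one_le_aleph0.trans hκ)).trans
      (Cardinal.add_eq_self hκ).le
  have h3 : Order.succ κ ≤ κ := by
    rw [← Cardinal.mk_ord_toType (Order.succ κ), ← Cardinal.mk_univ, h1]
    refine (Cardinal.mk_iUnion_le _).trans ?_
    calc #A * _ ≤ κ * κ := mul_le_mul' hA (ciSup_le' h2)
      _ = κ := Cardinal.mul_eq_self hκ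
  exact absurd h3 (not_le.2 (Order.lt_succ _))

/-- **The forcing theorem.** -/
theorem exists_forcing (R : Type) :
    ∃ (T K L P : Type) (_ : Preorder P), Nonempty (R ↪ T) ∧ Nonempty P ∧
      (∀ A : Set P, (∀ p ∈ A, ∀ q ∈ A, p ≠ q → ¬ ∃ r, r ≤ p ∧ r ≤ q) → A.Countable) ∧
      ∀ p : P, p ∈ PhiHolds P T K L := by
  let T : Type := R ⊕ Set ℕ
  let K : Type := (Order.succ #T).ord.ToType
  let L : Type := (Order.succ #K).ord.ToType
  let C : Type := Set (K × L)
  let Λ : Type := Set C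
  have hunc : Uncountable T := by
    rw [← Cardinal.aleph0_lt_mk_iff]
    have h1 : ℵ₀ < #(Set ℕ) := by
      rw [Cardinal.mk_set]
      exact (Cardinal.cantor _).trans_le' (by simp)
    refine h1.trans_le ?_
    rw [Cardinal.mk_sum, Cardinal.lift_id, Cardinal.lift_id]
    exact le_add_self
  have hT : ℵ₀ ≤ #T := Cardinal.aleph0_le_mk T
  have hKc : #K = Order.succ #T := Cardinal.mk_ord_toType _
  have hLc : #L = Order.succ #K := Cardinal.mk_ord_toType _
  have hTK : #T ≤ #K := by rw [hKc]; exact (Order.lt_succ _).le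
  have hKL : #K ≤ #L := by rw [hLc]; exact (Order.lt_succ _).le
  have hK : ℵ₀ ≤ #K := hT.trans hTK
  have hL : ℵ₀ ≤ #L := hK.trans hKL
  have hKLp : #(K × L) = #L := by
    rw [Cardinal.mk_prod, Cardinal.lift_id, Cardinal.lift_id]
    exact Cardinal.mul_eq_right hL hKL (Cardinal.aleph0_pos.trans_le hK).ne'
  have hCc : #C = 2 ^ #(K × L) := Cardinal.mk_set
  have hLC : #L < #C := by
    rw [hCc, hKLp]
    exact Cardinal.cantor _
  have hC : ℵ₀ ≤ #C := hL.trans hLC.le
  have hΛc : #Λ = 2 ^ #C := Cardinal.mk_set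
  have hCΛ : #C < #Λ := by
    rw [hΛc]
    exact Cardinal.cantor _
  have hΛ : ℵ₀ ≤ #Λ := hC.trans hCΛ.le
  have hpow : #Λ ^ ℵ₀ = #Λ := by
    rw [hΛc, ← Cardinal.power_mul, Cardinal.mul_eq_left hC hC Cardinal.aleph0_ne_zero]
  have hI : #(Ix K L C) ≤ #Λ := mk_Ix hΛ ((hKL.trans hLC.le).trans hCΛ.le)
    (hLC.le.trans hCΛ.le) hCΛ.le
  have hN : #(Nm Λ (Ix K L C)) ≤ #Λ := mk_Nm hΛ hpow le_rfl hI
  obtain ⟨code⟩ := hN
  have hι : Nonempty (T ↪ C) := by
    rw [← Cardinal.le_def]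
    exact hTK.trans (hKL.trans hLC.le)
  obtain ⟨ι⟩ := hι
  have hneK : Nonempty K := by
    rw [← Cardinal.mk_ne_zero_iff]
    exact (Cardinal.aleph0_pos.trans_le hK).ne'
  have hneL : Nonempty L := by
    rw [← Cardinal.mk_ne_zero_iff]
    exact (Cardinal.aleph0_pos.trans_le hL).ne'
  refine ⟨T, K, K × L, PP (GB (K := K) (L := L) (C := C) code), inferInstance,
    ⟨Function.Embedding.inl⟩, ⟨(Cond.one : Cond Λ (Ix K L C))⟩, ?_, ?_⟩
  · intro A hA
    by_contra hcon
    obtain ⟨p, hp, q, hq, hne, r, h1, h2⟩ := ccc (Γ := GB (K := K) (L := L) (C := C) code) A hcon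
    exact hA p hp q hq hne ⟨r, h1, h2⟩
  · refine forcing_of_card (bdd_succ hT le_rfl) (bdd_succ hK hTK) (bdd_succ hK le_rfl) ι
      ι.injective ?_ code code.injective
    intro A hA
    by_contra hcon
    push Not at hcon
    have h1 : (Set.univ : Set C) = ⋃ l, A l := by
      ext c
      simp only [Set.mem_univ, Set.mem_iUnion, true_iff]
      exact hcon c
    have h2 : #C ≤ #L := by
      rw [← Cardinal.mk_univ, h1]
      refine (Cardinal.mk_iUnion_le _).trans ?_
      calc #(K × L) * _ ≤ #L * ℵ₀ := by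
            apply mul_le_mul' hKLp.le
            apply ciSup_le'
            intro z
            exact Cardinal.mk_le_aleph0_iff.2 (hA z).to_subtype
        _ = #L := Cardinal.mul_aleph0_eq hL
    exact absurd h2 (not_le.2 hLC)

end Pool.Agent.H631.EI
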