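import Pool.Agent.H631.EI.Basic

/-!
# Bounds, and the pigeonhole principle
-/

set_option autoImplicit false

namespace Pool.Agent.H631.EI

open Classical

/-- the number of the types of the promises -/
def QQ (n : ℕ) : ℕ := 2 ^ (n * aa n)

/-- the size of the families which are amalgamated -/
def ff (n : ℕ) : ℕ := (n + 2) * 2 ^ (n ^ 2 * aa n)

theorem aa_mono : Monotone aa := monotone_nat_of_le_succ fun n => by
  show aa n ≤ aa n + 2 * (n ^ 2 * aa n + 2 * n + 2)
  omega

theorem vv_mono : Monotone vv := by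
  intro m n h
  have h1 : m ^ 2 * aa m ≤ n ^ 2 * aa n := Nat.mul_le_mul (Nat.pow_le_pow_left h 2) (aa_mono h)
  unfold vv
  omega

theorem VV_mono : Monotone VV := fun _ _ h => Nat.pow_le_pow_right (by norm_num) (vv_mono h)

theorem succ_le_VV (n : ℕ) : n + 1 ≤ VV n := by
  have h1 : n + 1 ≤ 2 ^ n := Nat.lt_two_pow_self
  refine h1.trans (Nat.pow_le_pow_right (by norm_num) ?_)
  unfold vv
  omega

theorem one_le_ff (n : ℕ) : 1 ≤ ff n := Nat.succ_le_of_lt (Nat.mul_pos (by omega) (by positivity))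

theorem QQ_pos (n : ℕ) : 0 < QQ n := by
  unfold QQ
  positivity

theorem ff_QQ {n m : ℕ} (h : m ≤ n) : (n + 2) * QQ n ^ m ≤ ff n := by
  unfold QQ ff
  refine Nat.mul_le_mul_left _ ?_
  rw [← pow_mul]
  refine Nat.pow_le_pow_right (by norm_num) ?_
  calc n * aa n * m ≤ n * aa n * n := Nat.mul_le_mul_left _ h
    _ = n ^ 2 * aa n := by ring

theorem ff_VV (n : ℕ) : (n + 1) * ff n ≤ VV n := by
  have h1 : n + 1 ≤ 2 ^ n := Nat.lt_two_pow_self
  have h2 : n + 2 ≤ 2 ^ (n + 1) := by
    have : n + 1 < 2 ^ (n + 1) := Nat.lt_two_pow_self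
    omega
  unfold ff VV vv
  calc (n + 1) * ((n + 2) * 2 ^ (n ^ 2 * aa n)) ≤ 2 ^ n * (2 ^ (n + 1) * 2 ^ (n ^ 2 * aa n)) :=
        Nat.mul_le_mul h1 (Nat.mul_le_mul_right _ h2)
    _ = 2 ^ (n + ((n + 1) + n ^ 2 * aa n)) := by rw [← pow_add, ← pow_add]
    _ ≤ 2 ^ (n ^ 2 * aa n + 2 * n + 2) := Nat.pow_le_pow_right (by norm_num) (by omega)

theorem ff_le_VV (n : ℕ) : ff n ≤ VV n :=
  le_trans (Nat.le_mul_of_pos_left _ (Nat.succ_pos n)) (ff_VV n)

theorem prod_bb (n : ℕ) : ∏ i : Fin n, bb i = 2 ^ aa n := by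
  rw [Fin.prod_univ_eq_prod_range (fun i => bb i) n]
  induction n with
  | zero => rfl
  | succ n ih =>
    rw [Finset.prod_range_succ, ih]
    show 2 ^ aa n * 2 ^ (2 * vv n) = 2 ^ (aa n + 2 * vv n)
    rw [pow_add]

theorem card_types (n : ℕ) : Fintype.card ((i : Fin n) → Fin n → Fin (bb i)) = QQ n := by
  rw [Fintype.card_pi]
  simp only [Fintype.card_fun, Fintype.card_fin]
  rw [Finset.prod_pow, prod_bb, QQ, ← pow_mul, mul_comm]

theorem pigeon {ι β : Type} [Fintype β] [Nonempty β] (F : Finset ι) (ty : ι → β) :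
    ∃ (b : β) (F' : Finset ι), F' ⊆ F ∧ F.card ≤ Fintype.card β * F'.card ∧
      ∀ l ∈ F', ty l = b := by
  suffices h : ∃ b, F.card ≤ Fintype.card β * (F.filter fun l => ty l = b).card by
    obtain ⟨b, hb⟩ := h
    exact ⟨b, _, Finset.filter_subset _ _, hb, fun l hl => (Finset.mem_filter.1 hl).2⟩
  by_contra hcon
  push Not at hcon
  have h1 : ∑ b : β, Fintype.card β * (F.filter fun l => ty l = b).card <
      ∑ _b : β, F.card :=
    Finset.sum_lt_sum_of_nonempty Finset.univ_nonempty fun b _ => hcon b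
  rw [← Finset.mul_sum, Finset.sum_const, smul_eq_mul, Finset.card_univ,
    ← Finset.card_eq_sum_card_fiberwise (s := F) (t := Finset.univ) (f := ty)
      (fun _ _ => Finset.mem_univ _)] at h1
  exact lt_irrefl _ h1

/-- The combinatorial core: among at most `ff n` finite sets of promises, with at most `L ≤ n`
elements each, a large part can be satisfied simultaneously. -/
theorem multi {ι M : Type} (L n N : ℕ) (hL : L ≤ n) (F : Finset ι) (hF : F.card ≤ ff n)
    (pr : ι → Finset M) (hpr : ∀ l ∈ F, (pr l).card ≤ L) (val : M → ℕ → ℕ) :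
    ∃ F' ⊆ F, F.card ≤ QQ n * F'.card ∧ ∃ A : ℕ → Finset ℕ,
      (∀ i, L ≤ i → (A i).card ≤ VV i) ∧
      ∀ l ∈ F', ∀ m ∈ pr l, ∀ i, L ≤ i → i < N → val m i % bb i ∈ A i := by
  rcases F.eq_empty_or_nonempty with rfl | hne
  · exact ⟨∅, Finset.Subset.refl _, by simp, fun _ => ∅, by simp, by simp⟩
  let ty : ι → ((i : Fin n) → Fin n → Fin (bb i)) := fun l i k =>
    match (pr l).toList[(k : ℕ)]? with
    | some m => ⟨val m i % bb i, Nat.mod_lt _ (bb_pos i)⟩
    | none => ⟨0, bb_pos i⟩
  have : Nonempty ((i : Fin n) → Fin n → Fin (bb i)) := ⟨fun i _ => ⟨0, bb_pos i⟩⟩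
  obtain ⟨b, F', hsub, hb, hbF⟩ := pigeon F ty
  rw [card_types] at hb
  have hne' : F'.Nonempty := by
    rw [← Finset.card_pos]
    rcases Nat.eq_zero_or_pos F'.card with h | h
    · rw [h, mul_zero] at hb
      have := Finset.card_pos.2 hne
      omega
    · exact h
  obtain ⟨l0, hl0⟩ := hne'
  refine ⟨F', hsub, hb, fun i => if i < n then insert 0 ((pr l0).image fun m => val m i % bb i)
    else (F'.biUnion pr).image fun m => val m i % bb i, fun i hi => ?_, fun l hl m hm i hi hiN => ?_⟩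
  · show (if i < n then insert 0 ((pr l0).image fun m => val m i % bb i)
      else (F'.biUnion pr).image fun m => val m i % bb i).card ≤ VV i
    split_ifs with h
    · refine (Finset.card_insert_le _ _).trans ?_
      have h1 : ((pr l0).image fun m => val m i % bb i).card ≤ L :=
        Finset.card_image_le.trans (hpr l0 (hsub hl0))
      exact (Nat.succ_le_succ (h1.trans hi)).trans (succ_le_VV i)
    · refine Finset.card_image_le.trans ?_
      have h1 : (F'.biUnion pr).card ≤ F'.card * L :=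
        Finset.card_biUnion_le_card_mul _ _ _ fun l hl => hpr l (hsub hl)
      calc (F'.biUnion pr).card ≤ F'.card * L := h1
        _ ≤ ff n * (n + 1) := Nat.mul_le_mul ((Finset.card_le_card hsub).trans hF) (by omega)
        _ = (n + 1) * ff n := mul_comm _ _
        _ ≤ VV n := ff_VV n
        _ ≤ VV i := VV_mono (not_lt.1 h)
  · show val m i % bb i ∈ (if i < n then insert 0 ((pr l0).image fun m => val m i % bb i)
      else (F'.biUnion pr).image fun m => val m i % bb i)
    split_ifs with h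
    · have hty : ty l = ty l0 := (hbF l hl).trans (hbF l0 hl0).symm
      obtain ⟨k, hk, hkm⟩ := List.getElem_of_mem (Finset.mem_toList.2 hm)
      have hkn : k < n := by
        have h2 : (pr l).toList.length ≤ L := by
          rw [Finset.length_toList]
          exact hpr l (hsub hl)
        omega
      have h3 := congrArg Fin.val (congrFun (congrFun hty ⟨i, h⟩) ⟨k, hkn⟩)
      have h4 : (ty l ⟨i, h⟩ ⟨k, hkn⟩ : ℕ) = val m i % bb i := by
        simp only [ty]
        rw [List.getElem?_eq_getElem hk, hkm]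
      rw [h4] at h3
      rw [h3]
      simp only [ty]
      rcases h5 : (pr l0).toList[k]? with _ | m'
      · exact Finset.mem_insert_self _ _
      · refine Finset.mem_insert_of_mem (Finset.mem_image.2 ⟨m', ?_, rfl⟩)
        exact Finset.mem_toList.1 (List.mem_of_getElem? h5)
    · exact Finset.mem_image.2 ⟨m, Finset.mem_biUnion.2 ⟨l, hl, hm⟩, rfl⟩

end Pool.Agent.H631.EI
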