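import Pool.Agent.H631.EI.Basic
import Pool.Graph.R_seed8.Helper669.Forcing

/-!
# The preorder of the conditions, the sentence which is forced
-/

set_option autoImplicit false
set_option linter.unusedSectionVars false

namespace Pool.Agent.H631.EI

open Classical Pool.Agent.Helper669.Forcing

/-! ### The combinatorial statement -/

/-- There is a family of functions `y k`, `k : K`, such that for every function `x` some `y k` is
infinitely often equal to `x` (modulo the bounds). -/
def InfEqual (K : Type) : Prop :=
  ∃ y : K → ℕ → ℕ, ∀ x : ℕ → ℕ, ∃ k, ∀ N, ∃ n, N ≤ n ∧ ∃ v, x n = v ∧ y k n = v % bb n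

/-- For every family of functions `x k`, `k : K`, some function `d` is infinitely often equal to
every `x k` (modulo the bounds). -/
def MeetAll (K : Type) : Prop :=
  ∀ x : K → ℕ → ℕ, ∃ d : ℕ → ℕ, ∀ k, ∀ N, ∃ n, N ≤ n ∧ ∃ v, x k n = v ∧ d n = v % bb n

/-- For every family of functions `x t`, `t : T`, some slalom `n ↦ dec n (σ n)` (of width `VV n`)
captures all of them (modulo the bounds). -/
def CaptureAll (T : Type) : Prop :=
  ∀ x : T → ℕ → ℕ, ∃ σ : ℕ → ℕ, ∀ t, ∃ N, ∀ n, N ≤ n →
    ∃ v, x t n = v ∧ ∃ s, σ n = s ∧ v % bb n ∈ dec n s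

/-- There is a family of slaloms `σ l`, `l : L`, such that every function is captured by some
`σ l`. -/
def Capturing (L : Type) : Prop :=
  ∃ σ : L → ℕ → ℕ, ∀ x : ℕ → ℕ, ∃ l, ∃ N, ∀ n, N ≤ n →
    ∃ v, x n = v ∧ ∃ s, σ l n = s ∧ v % bb n ∈ dec n s

/-- There is a family of functions `φ t`, `t : T`, such that no slalom of width `n + 1`
captures all of them (modulo `VV n`). -/
def NotCaught (T : Type) : Prop :=
  ∃ φ : T → ℕ → ℕ, ∀ ψ : ℕ → ℕ, ∃ t, ∀ N, ∃ n, N ≤ n ∧ ∀ i, i ≤ n →
    ¬ ∃ v, φ t n = v ∧ ψ (Nat.pair n i) = v % VV n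

/-- For every family of slaloms of width `n + 1`, indexed by `L`, some function is not captured by
any of them (modulo `VV n`). -/
def Escape (L : Type) : Prop :=
  ∀ ψ : L → ℕ → ℕ, ∃ φ : ℕ → ℕ, ∀ l, ∀ N, ∃ n, N ≤ n ∧ ∀ i, i ≤ n →
    ¬ ∃ v, φ n = v ∧ ψ l (Nat.pair n i) = v % VV n

/-- The combinatorial statement which is forced. -/
def PhiFor (T K L : Type) : Prop :=
  NotCaught T ∧ CaptureAll T ∧ InfEqual K ∧ MeetAll K ∧ Capturing L ∧ Escape L

/-! ### The sentence of the forcing language -/

section Sentence

/-- Forcing version of `InfEqual`; functions are given by names of their graphs. -/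
def InfEqualN (P : Type) [Preorder P] (K : Type) : Set P :=
  fex fun y : K → ℕ → ℕ → Set P => fand (fall fun k => IsFun (y k))
    (fall fun x : ℕ → ℕ → Set P => fimp (IsFun x)
      (fex fun k => fall fun N => fex fun n => fand (fground (N ≤ n))
        (fex fun v => fand (meets (x n v)) (meets (y k n (v % bb n))))))

/-- Forcing version of `MeetAll`. -/
def MeetAllN (P : Type) [Preorder P] (K : Type) : Set P :=
  fall fun x : K → ℕ → ℕ → Set P => fimp (fall fun k => IsFun (x k))
    (fex fun d : ℕ → ℕ → Set P => fand (IsFun d)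
      (fall fun k => fall fun N => fex fun n => fand (fground (N ≤ n))
        (fex fun v => fand (meets (x k n v)) (meets (d n (v % bb n))))))

/-- Forcing version of `CaptureAll`. -/
def CaptureAllN (P : Type) [Preorder P] (T : Type) : Set P :=
  fall fun x : T → ℕ → ℕ → Set P => fimp (fall fun t => IsFun (x t))
    (fex fun σ : ℕ → ℕ → Set P => fand (IsFun σ)
      (fall fun t => fex fun N => fall fun n => fimp (fground (N ≤ n)) (fex fun v =>
        fand (meets (x t n v)) (fex fun s =>
          fand (meets (σ n s)) (fground (v % bb n ∈ dec n s))))))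

/-- Forcing version of `Capturing`. -/
def CapturingN (P : Type) [Preorder P] (L : Type) : Set P :=
  fex fun σ : L → ℕ → ℕ → Set P => fand (fall fun l => IsFun (σ l))
    (fall fun x : ℕ → ℕ → Set P => fimp (IsFun x)
      (fex fun l => fex fun N => fall fun n => fimp (fground (N ≤ n)) (fex fun v =>
        fand (meets (x n v)) (fex fun s =>
          fand (meets (σ l n s)) (fground (v % bb n ∈ dec n s))))))

/-- Forcing version of `NotCaught`. -/
def NotCaughtN (P : Type) [Preorder P] (T : Type) : Set P :=
  fex fun φ : T → ℕ → ℕ → Set P => fand (fall fun t => IsFun (φ t))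
    (fall fun ψ : ℕ → ℕ → Set P => fimp (IsFun ψ)
      (fex fun t => fall fun N => fex fun n => fand (fground (N ≤ n)) (fall fun i =>
        fimp (fground (i ≤ n))
          (fnot (fex fun v => fand (meets (φ t n v)) (meets (ψ (Nat.pair n i) (v % VV n))))))))

/-- Forcing version of `Escape`. -/
def EscapeN (P : Type) [Preorder P] (L : Type) : Set P :=
  fall fun ψ : L → ℕ → ℕ → Set P => fimp (fall fun l => IsFun (ψ l))
    (fex fun φ : ℕ → ℕ → Set P => fand (IsFun φ)
      (fall fun l => fall fun N => fex fun n => fand (fground (N ≤ n)) (fall fun i =>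
        fimp (fground (i ≤ n))
          (fnot (fex fun v => fand (meets (φ n v)) (meets (ψ l (Nat.pair n i) (v % VV n))))))))

/-- The sentence `PhiFor T K L` of the forcing language. -/
def PhiHolds (P : Type) [Preorder P] (T K L : Type) : Set P :=
  fand (NotCaughtN P T) (fand (CaptureAllN P T) (fand (InfEqualN P K) (fand (MeetAllN P K)
    (fand (CapturingN P L) (EscapeN P L)))))

end Sentence

/-! ### The preorder of the conditions -/

variable {M I : Type}

/-- the conditions, with the order given by the parameters -/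
def PP (_Γ : Par M I) : Type := Cond M I

variable {Γ : Par M I}

/-- an element of `PP Γ` as a condition -/
abbrev PP.toC (r : PP Γ) : Cond M I := r

noncomputable instance : Preorder (PP Γ) where
  le q p := le Γ Set.univ q p
  le_refl p := le_refl' Set.univ p
  le_trans _ _ _ h1 h2 := le_trans' low_univ h1 h2

theorem PP.le_def {q p : PP Γ} : q ≤ p ↔ le Γ Set.univ q p := Iff.rfl

/-- the countable chain condition -/
def CCC (Γ : Par M I) : Prop :=
  ∀ A : Set (Cond M I), ¬ A.Countable → ∃ p ∈ A, ∃ q ∈ A, p ≠ q ∧
    ∃ r, le Γ Set.univ r p ∧ le Γ Set.univ r q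

end Pool.Agent.H631.EI
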