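import Pool.Agent.H631.EI.Frame
import Pool.Agent.H631.EV.Ideal

/-!
# The ideals `E_{I, ε}`
-/

set_option autoImplicit false

namespace Pool.Agent.H631.EI

open Cardinal Filter Topology Pool.Agent.H631.EV

/-- `[φ]_*`: the set of the `x` such that `x ↾ I n ∈ φ n` for all but finitely many `n`. -/
def AlmAll (a : ℕ → ℕ) (φ : (n : ℕ) → Finset (Iv a n → Bool)) : Set (ℕ → Bool) :=
  {x | ∃ N, ∀ n, N ≤ n → res a n x ∈ φ n}

/-- The ideal `E_{I, ε}`. -/
def EIdeal (a : ℕ → ℕ) (ε : ℕ → ℝ) : Set (Set (ℕ → Bool)) :=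
  {X | ∃ φ, InSigma a ε φ ∧ X ⊆ AlmAll a φ}

/-- the sequence `ε` -/
noncomputable def ee (n : ℕ) : ℝ := (n + 1) / VV n

theorem aa_succ (n : ℕ) : aa (n + 1) = aa n + 2 * vv n := rfl

theorem aa_part : IsPartition aa :=
  ⟨rfl, strictMono_nat_of_lt_succ fun n => by rw [aa_succ, vv]; omega⟩

theorem vv_ge (n : ℕ) : 2 * n + 2 ≤ vv n := by
  rw [vv]
  omega

theorem VV_ge (n : ℕ) : 4 ^ (n + 1) ≤ VV n := by
  have h1 : (4 : ℕ) ^ (n + 1) = 2 ^ (2 * n + 2) := by
    rw [show 2 * n + 2 = 2 * (n + 1) by ring, pow_mul]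
    norm_num
  rw [h1, VV]
  exact Nat.pow_le_pow_right (by norm_num) (vv_ge n)

theorem lt_VV (n : ℕ) : n + 1 < VV n := by
  have h1 : n + 1 < 2 ^ (n + 1) := Nat.lt_two_pow_self
  have h2 : 2 ^ (n + 1) ≤ 4 ^ (n + 1) := Nat.pow_le_pow_left (by norm_num) _
  exact h1.trans_le (h2.trans (VV_ge n))

theorem bb_eq (n : ℕ) : bb n = VV n * VV n := by
  rw [bb, VV, two_mul, pow_add]

theorem ee_pos (n : ℕ) : 0 < ee n := by
  have := VV_pos n
  unfold ee
  positivity

theorem ee_summable : Summable ee := by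
  have h1 : Summable fun n : ℕ => ((n : ℝ) ^ 1 * (1 / 4 : ℝ) ^ n) :=
    summable_pow_mul_geometric_of_norm_lt_one 1 (by
      rw [Real.norm_of_nonneg (by norm_num)]
      norm_num)
  have h2 : Summable fun n : ℕ => (((n + 1 : ℕ) : ℝ) ^ 1 * (1 / 4 : ℝ) ^ (n + 1)) :=
    (summable_nat_add_iff 1).2 h1
  refine Summable.of_nonneg_of_le (fun n => (ee_pos n).le) (fun n => ?_) h2
  have h3 : (4 : ℝ) ^ (n + 1) ≤ VV n := by exact_mod_cast VV_ge n
  rw [ee, pow_one, one_div, inv_pow, ← div_eq_mul_inv]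
  push_cast
  gcongr

theorem width_eq (n : ℕ) : (2 : ℝ) ^ (aa (n + 1) - aa n) * ee n = (n + 1) * VV n := by
  have h1 : aa (n + 1) - aa n = vv n + vv n := by rw [aa_succ]; omega
  have h2 : ((VV n : ℕ) : ℝ) = 2 ^ vv n := by rw [VV]; push_cast; rfl
  have h3 : (2 : ℝ) ^ vv n ≠ 0 := by positivity
  rw [h1, ee, pow_add, h2]
  field_simp

theorem card_Iv (n : ℕ) : Fintype.card (Iv aa n → Bool) = bb n := by
  have h1 : Fintype.card (Iv aa n) = 2 * vv n := by
    rw [Fintype.card_of_subtype (Finset.Ico (aa n) (aa (n + 1))) (fun i => by simp),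
      Nat.card_Ico, aa_succ]
    omega
  rw [Fintype.card_fun, Fintype.card_bool, h1]
  rfl

/-- the number of a function on the interval -/
noncomputable def cod (n : ℕ) (w : Iv aa n → Bool) : ℕ :=
  (Fintype.equivFinOfCardEq (card_Iv n) w).val

/-- the function with a given number -/
noncomputable def dcd (n m : ℕ) : Iv aa n → Bool :=
  (Fintype.equivFinOfCardEq (card_Iv n)).symm ⟨m % bb n, Nat.mod_lt _ (bb_pos n)⟩

theorem cod_lt (n : ℕ) (w : Iv aa n → Bool) : cod n w < bb n :=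
  (Fintype.equivFinOfCardEq (card_Iv n) w).isLt

theorem cod_dcd (n m : ℕ) : cod n (dcd n m) = m % bb n := by
  simp [cod, dcd]

theorem cod_inj (n : ℕ) : Function.Injective (cod n) := fun _ _ h =>
  (Fintype.equivFinOfCardEq (card_Iv n)).injective (Fin.ext h)

/-- the ideal -/
abbrev JJ : Set (Set (ℕ → Bool)) := EIdeal aa ee

theorem small_of {φ : (n : ℕ) → Finset (Iv aa n → Bool)} (h : InSigma aa ee φ) :
    ∃ N, ∀ n, N ≤ n → (φ n).card ≤ (n + 1) * VV n := by
  have h1 : ∀ᶠ n in atTop, ((φ n).card : ℝ) / (2 ^ (aa (n + 1) - aa n) * ee n) < 1 :=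
    h.eventually (gt_mem_nhds one_pos)
  obtain ⟨N, hN⟩ := eventually_atTop.1 h1
  refine ⟨N, fun n hn => ?_⟩
  have h2 := hN n hn
  have h3 : (0 : ℝ) < VV n := by exact_mod_cast VV_pos n
  rw [width_eq, div_lt_one (by positivity)] at h2
  exact_mod_cast h2.le

/-- slaloms of width `VV n` are in `Σ_{I, ε}` -/
theorem sigma_of_le {φ : (n : ℕ) → Finset (Iv aa n → Bool)} (h : ∀ n, (φ n).card ≤ VV n) :
    InSigma aa ee φ := by
  have h1 : ∀ n, ((φ n).card : ℝ) / (2 ^ (aa (n + 1) - aa n) * ee n) ≤ 1 / ((n : ℝ) + 1) := by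
    intro n
    have h3 : (0 : ℝ) < VV n := by exact_mod_cast VV_pos n
    have h2 : ((φ n).card : ℝ) ≤ VV n := by exact_mod_cast h n
    rw [width_eq, div_le_div_iff₀ (by positivity) (by positivity)]
    nlinarith
  refine squeeze_zero (fun n => ?_) h1 tendsto_one_div_add_atTop_nhds_zero_nat
  have h3 : (0 : ℝ) < VV n := by exact_mod_cast VV_pos n
  rw [width_eq]
  positivity

/-- a nonempty family of small size is the image of the index set -/
theorem exists_onto {α β : Type} {F : Set α} (hF : F.Nonempty) (h : #F ≤ #β) :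
    ∃ g : β → α, (∀ b, g b ∈ F) ∧ ∀ A ∈ F, ∃ b, g b = A := by
  classical
  obtain ⟨⟨f, hf⟩⟩ := h
  obtain ⟨A0, hA0⟩ := hF
  refine ⟨fun b => if h : ∃ A : F, f A = b then h.choose.1 else A0, fun b => ?_, fun A hA => ?_⟩
  · show (if h : ∃ A : F, f A = b then h.choose.1 else A0) ∈ F
    split_ifs with h
    · exact h.choose.2
    · exact hA0
  · refine ⟨f ⟨A, hA⟩, ?_⟩
    have h1 : ∃ A' : F, f A' = f ⟨A, hA⟩ := ⟨_, rfl⟩
    simp only [dif_pos h1]
    exact congrArg Subtype.val (hf h1.choose_spec)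

end Pool.Agent.H631.EI
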