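import Pool.Agent.H631.EI.Ideal

/-!
# Project EI (helper631): the ZFC part; statements to prove

`E_{I, ε}` (`JJ = EIdeal aa ee`), `|I n| = 2 * vv n`, `bb n = 2 ^ |I n| = VV n * VV n`,
`ε n = (n + 1) / VV n`, so `2 ^ |I n| * ε n = (n + 1) * VV n` (`width_eq`).
The corresponding proofs for `S_{I, ε}` are in `Pool/Agent/H631/EV/Zfc.lean` (very similar; please adapt them).
-/

set_option autoImplicit false

namespace Pool.Agent.H631.EI

open Cardinal Filter Topology Pool.Agent.H631.EV

/-- Z2. Proof: for `x` use `φ n = {res aa n x}` with `sigma_of_le` (card 1 ≤ VV n). -/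
def S_SING : Prop := ∀ x : ℕ → Bool, {x} ∈ JJ

/-- Z2. Proof: if `univ ⊆ AlmAll φ` with `φ ∈ Σ`, take `N` from `small_of`; for `n ≥ N`,
`card (φ n) ≤ (n + 1) * VV n < VV n * VV n = bb n` (`lt_VV`, `bb_eq`, `card_Iv`), so there is `w n ∉ φ n`;
glue them with `glue aa_part`. -/
def S_UNIV : Prop := Set.univ ∉ JJ

/-- Z3. Proof: let `blk y n = {w | cod n w / VV n = y n % VV n}` (a finset filter); its card is at most
`VV n` (`cod n` is injective, and `{c | c / VV n = m} = [m * VV n, (m + 1) * VV n)`), so `blk y ∈ Σ` by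
`sigma_of_le`. Let `φ ∈ Σ` with `card (φ n) ≤ (n + 1) * VV n` for `n ≥ N` (`small_of`). For `n ≥ N` the set of the `m < VV n` with
`{w | cod n w / VV n = m} ⊆ φ n` has at most `n + 1` elements (disjoint blocks, each with exactly `VV n`
elements, because every number less than `bb n = VV n * VV n` is `cod n w` for some `w`), so there is `ψ` such that each such
`m` is `ψ (Nat.pair n i)` for some `i ≤ n`. If `∀ M, ∃ n ≥ M, ∀ i ≤ n, ψ (pair n i) ≠ y n % VV n` then for these `n` (`≥ N`) some
`w n` in the block of `y n % VV n` is not in `φ n`; otherwise take any `w n` in the block (nonempty). Glue: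
`x ∈ AlmAll (blk y)`, `x ∉ AlmAll φ`. So `AlmAll (blk y) ⊄ AlmAll φ`.
`addC JJ ≤ #T`: the family `AlmAll (blk (f t))`, `f t` from `NotCaught` (range of `t ↦ ...`), cf. `add_le` in
EV/Zfc.lean. (In `NotCaught` the clause is `¬ ∃ v, φ t n = v ∧ ψ (Nat.pair n i) = v % VV n`.) -/
def S_ADD : Prop := ∀ T : Type, NotCaught T → addC JJ ≤ #T

/-- Z3. Proof: as in `lt_cof` in EV/Zfc.lean, with the blocks from `S_ADD`. -/
def S_COF : Prop := ∀ L : Type, Escape L → #L < cofC JJ

/-- Z4. Proof: the set of all `A ∉ JJ` is nonempty because of the hypothesis `Set.univ ∉ JJ` (take `S_UNIV` as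
a hypothesis: prove `S_UNIV → S_LTNON`). Let `A ∉ JJ`, `#A = nonC JJ`, and suppose `#A ≤ #T`. `A` is nonempty. `g : T → A` onto
(`exists_onto`). Let `x t n = cod n (res aa n (g t))`, and `σ` from `CaptureAll`. Put
`φ n = {w | cod n w ∈ dec n (σ n)}`; card ≤ card (dec n (σ n)) ≤ VV n (`dec_card`, `cod_inj`), so `φ ∈ Σ` (`sigma_of_le`); and
`A ⊆ AlmAll φ` since `cod n _ % bb n = cod n _` (`cod_lt`). -/
def S_LTNON : Prop := Set.univ ∉ JJ → ∀ T : Type, CaptureAll T → #T < nonC JJ

/-- Z4. Proof: the family of the sets `AlmAll (fun n => {w | cod n w ∈ dec n (σ l n)})`, `l : L`, is contained in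
`JJ`, and covers everything by `Capturing L` for the function `n ↦ cod n (res aa n z)`. -/
def S_COVLE : Prop := ∀ L : Type, Capturing L → covC JJ ≤ #L

/-- Z5. Proof: `y` from `InfEqual K`; `z k` with `res aa n (z k) = dcd n (y k n)` (`glue`). The set
`{z k | k}` is not in `JJ`: if it is contained in `AlmAll φ`, `φ ∈ Σ`, take `N` from `small_of`, and for each `n` a
function `w n ∉ φ n` (for `n ≥ N`, as `card (φ n) ≤ (n + 1) * VV n < bb n`), `x n = cod n (w n)`. Some `k` is such that
`y k n % bb n = x n` for infinitely many `n`, so `res aa n (z k) = w n ∉ φ n` (by `cod_inj`, `cod_dcd`) for infinitely many `n`. -/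
def S_NONLE : Prop := ∀ K : Type, InfEqual K → nonC JJ ≤ #K

/-- Z5. Proof: the set of all covering families is nonempty (take `S_SING` as a hypothesis: all singletons, as in
`lt_cov` in EV/Zfc.lean). Let `F` be a covering family with `#F = covC JJ ≤ #K`, `g : K → F` onto; `g k ⊆ AlmAll (φ k)`,
`φ k ∈ Σ`. For each `k`, and `n ≥ N k`, a function `w k n ∉ φ k n`; `x k n = cod n (w k n)`. `d` from `MeetAll K`; `z` with
`res aa n z = dcd n (d n)`. `z` is in some `g k`; `d n = x k n % bb n = x k n` for infinitely many `n`, so `res aa n z = w k n ∉ φ k n`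
infinitely often, a contradiction. -/
def S_LTCOV : Prop := (∀ x : ℕ → Bool, {x} ∈ JJ) → ∀ K : Type, MeetAll K → #K < covC JJ

end Pool.Agent.H631.EI
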